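import Pool.Agent.ACK.StmtsC

/-!
# ACK, row LBL: merging of labels
-/

set_option autoImplicit false

namespace Pool.Agent.ACK.H25

open Pool.Agent.ACK.C

/-- the invariant -/
def LI {α : Type} (F : ℕ → α) (l : List ℕ) : Prop :=
  l.length = 12 ∧ (∀ i < 12, l.getD i 0 < 12) ∧
    ∀ i < 12, ∀ j < 12, l.getD i 0 = l.getD j 0 → F i = F j

theorem getD_mrg (l : List ℕ) (p : ℕ × ℕ) (i : ℕ) (h : i < l.length) :
    (mrg l p).getD i 0 = if l.getD i 0 = l.getD p.1 0 then l.getD p.2 0 else l.getD i 0 := by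
  have h' : i < (mrg l p).length := by
    unfold mrg
    simpa using h
  rw [List.getD_eq_getElem _ _ h']
  unfold mrg
  simp only [List.getElem_map]
  rw [← List.getD_eq_getElem l 0 h]
  by_cases h1 : l.getD i 0 = l.getD p.1 0
  · rw [if_pos h1, h1]
    simp
  · rw [if_neg h1]
    have h2 : (l.getD i 0 == l.getD p.1 0) = false := by simpa using h1
    rw [h2]
    rfl

theorem LI.step {α : Type} {F : ℕ → α} {l : List ℕ} (h : LI F l) (p : ℕ × ℕ) (h1 : p.1 < 12)
    (h2 : p.2 < 12) (h3 : F p.1 = F p.2) : LI F (mrg l p) := by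
  obtain ⟨a1, a2, a3⟩ := h
  refine ⟨by unfold mrg; simpa using a1, ?_, ?_⟩
  · intro i hi
    rw [getD_mrg l p i (by omega)]
    split_ifs
    · exact a2 _ h2
    · exact a2 _ hi
  · intro i hi j hj
    rw [getD_mrg l p i (by omega), getD_mrg l p j (by omega)]
    by_cases hu : l.getD i 0 = l.getD p.1 0
    · rw [if_pos hu]
      by_cases hv : l.getD j 0 = l.getD p.1 0
      · intro _
        exact a3 i hi j hj (hu.trans hv.symm)
      · rw [if_neg hv]
        intro h
        exact (a3 i hi _ h1 hu).trans (h3.trans (a3 _ h2 j hj h))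
    · rw [if_neg hu]
      by_cases hv : l.getD j 0 = l.getD p.1 0
      · rw [if_pos hv]
        intro h
        exact (a3 i hi _ h2 h).trans (h3.symm.trans (a3 _ h1 j hj hv.symm))
      · rw [if_neg hv]
        exact a3 i hi j hj

theorem LI.fold {α : Type} {F : ℕ → α} : ∀ (L : List (ℕ × ℕ)) (l : List ℕ), LI F l →
    (∀ p ∈ L, p.1 < 12 ∧ p.2 < 12 ∧ F p.1 = F p.2) → LI F (L.foldl mrg l)
  | [], _, h, _ => h
  | p :: L, l, h, hL => by
    rw [List.foldl_cons]
    obtain ⟨h1, h2, h3⟩ := hL p List.mem_cons_self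
    exact LI.fold L _ (h.step p h1 h2 h3) fun q hq => hL q (List.mem_cons_of_mem _ hq)

theorem lbl : LblStmt := by
  intro α F L hL
  have h0 : LI F (List.range 12) := by
    have e : ∀ i < 12, (List.range 12).getD i 0 = i := by
      intro i hi
      rw [List.getD_eq_getElem _ _ (by simpa using hi), List.getElem_range]
    refine ⟨List.length_range, ?_, ?_⟩
    · intro i hi
      rw [e i hi]
      exact hi
    · intro i hi j hj
      rw [e i hi, e j hj]
      intro h
      rw [h]
  obtain ⟨a1, a2, a3⟩ := LI.fold L _ h0 hL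
  set l := L.foldl mrg (List.range 12) with hl
  set T := (List.range 12).filter (fun k => l.any (fun z => z == k)) with hT
  classical
  have hch : ∃ H : ℕ → α, ∀ i < 12, H (l.getD i 0) = F i := by
    refine ⟨fun k => if h : ∃ i < 12, l.getD i 0 = k then F h.choose else F 0, ?_⟩
    intro i hi
    have h : ∃ i' < 12, l.getD i' 0 = l.getD i 0 := ⟨i, hi, rfl⟩
    simp only
    rw [dif_pos h]
    exact a3 _ h.choose_spec.1 i hi h.choose_spec.2
  obtain ⟨H, hH⟩ := hch
  have hsub : F '' {k | k < 12} ⊆ H '' (T.toFinset : Set ℕ) := by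
    rintro _ ⟨i, hi, rfl⟩
    have hi' : i < 12 := hi
    refine ⟨l.getD i 0, ?_, hH i hi'⟩
    rw [Finset.mem_coe, List.mem_toFinset, hT, List.mem_filter]
    refine ⟨List.mem_range.2 (a2 i hi'), ?_⟩
    rw [List.any_eq_true]
    refine ⟨l.getD i 0, ?_, by simp⟩
    rw [List.getD_eq_getElem _ _ (by omega : i < l.length)]
    exact List.getElem_mem _
  calc Set.ncard (F '' {k | k < 12}) ≤ Set.ncard (H '' (T.toFinset : Set ℕ)) :=
        Set.ncard_le_ncard hsub ((Finset.finite_toSet _).image _)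
    _ ≤ Set.ncard (T.toFinset : Set ℕ) := Set.ncard_image_le (Finset.finite_toSet _)
    _ = T.toFinset.card := Set.ncard_coe_finset _
    _ ≤ T.length := List.toFinset_card_le T

end Pool.Agent.ACK.H25
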