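import Pool.Agent.ACK.StmtsD

/-!
# ACK, row WIL: interlacement of the pattern words
-/

set_option autoImplicit false

namespace Pool.Agent.ACK.H25

open Pool.Agent.ACK.D

theorem R1 (s1 : ℕ) : ∀ n : ℕ, (List.range n).filter (fun s => decide (s = s1)) =
    if s1 < n then [s1] else []
  | 0 => by simp
  | n + 1 => by
    rw [List.range_succ, List.filter_append, R1 s1 n]
    by_cases h1 : s1 < n
    · rw [if_pos h1, if_pos (by omega : s1 < n + 1), List.filter_cons_of_neg (by simp; omega)]
      rfl
    · rw [if_neg h1]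
      by_cases h2 : s1 = n
      · subst h2
        simp
      · rw [if_neg (by omega : ¬ s1 < n + 1), List.filter_cons_of_neg (by simp; omega)]
        rfl

theorem R2 (s1 s2 : ℕ) (h : s1 < s2) : ∀ n : ℕ,
    (List.range n).filter (fun s => decide (s = s1 ∨ s = s2)) =
      if s2 < n then [s1, s2] else if s1 < n then [s1] else []
  | 0 => by simp
  | n + 1 => by
    rw [List.range_succ, List.filter_append, R2 s1 s2 h n]
    by_cases h1 : s2 < n
    · rw [if_pos h1, if_pos (by omega : s2 < n + 1), List.filter_cons_of_neg (by simp; omega)]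
      rfl
    · rw [if_neg h1]
      by_cases h2 : s2 = n
      · subst h2
        rw [if_pos h, if_pos (by omega), List.filter_cons_of_pos (by simp)]
        rfl
      · rw [if_neg (by omega : ¬ s2 < n + 1)]
        by_cases h3 : s1 < n
        · rw [if_pos h3, if_pos (by omega), List.filter_cons_of_neg (by simp; omega)]
          rfl
        · rw [if_neg h3]
          by_cases h4 : s1 = n
          · subst h4
            rw [if_pos (by omega), List.filter_cons_of_pos (by simp)]
            rfl
          · rw [if_neg (by omega), List.filter_cons_of_neg (by simp; omega)]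
            rfl

/-- the crossings of a run -/
def S (i : Fin 6) (n : ℕ) : List ℕ := (List.range n).map fun s => 6 * s + i.1

/-- the run without marks -/
def rl (i : Fin 6) (d : Bool) (n : ℕ) : List ℕ := if d then (S i n).reverse else S i n

theorem run_fst (i : Fin 6) (t d : Bool) (n : ℕ) : (run i t d n).map Prod.fst = rl i d n := by
  unfold run rl S
  cases d
  · simp
  · simp

theorem eq_iff (i : Fin 6) (s x : ℕ) : 6 * s + i.1 = x ↔ cx x = i ∧ s = x / 6 := by
  unfold cx
  rw [Fin.ext_iff]
  have := i.2
  simp only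
  constructor
  · intro h
    subst h
    constructor <;> omega
  · rintro ⟨h1, h2⟩
    omega

theorem mk (i : Fin 6) (x : ℕ) (h : cx x = i) : 6 * (x / 6) + i.1 = x := (eq_iff i _ x).2 ⟨h, rfl⟩

theorem fl_S (i : Fin 6) (n x y : ℕ) :
    fl (S i n) x y = ((List.range n).filter fun s => decide ((cx x = i ∧ s = x / 6) ∨
      (cx y = i ∧ s = y / 6))).map fun s => 6 * s + i.1 := by
  unfold fl S
  rw [List.filter_map]
  congr 1
  refine List.filter_congr fun s _ => ?_
  simp only [Function.comp, eq_iff]

theorem S_ne (i : Fin 6) (n x y : ℕ) (h : cx x ≠ cx y) (hx : cx x = i → x / 6 < n)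
    (hy : cx y = i → y / 6 < n) :
    fl (S i n) x y = if i = cx x then [x] else if i = cx y then [y] else [] := by
  rw [fl_S]
  by_cases h1 : cx x = i
  · have h2 : cx y ≠ i := fun h3 => h (h1.trans h3.symm)
    simp only [h1, h2, true_and, false_and, or_false, if_true]
    rw [R1, if_pos (hx h1), List.map_singleton, mk i x h1]
  · by_cases h2 : cx y = i
    · simp only [h1, h2, true_and, false_and, false_or, if_true]
      rw [R1, if_pos (hy h2), if_neg (fun h3 => h1 h3.symm), List.map_singleton, mk i y h2]
    · simp only [h1, h2, false_and, or_false]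
      rw [if_neg (fun h3 => h1 h3.symm), if_neg (fun h3 => h2 h3.symm)]
      simp

theorem S_eq (i : Fin 6) (n x y : ℕ) (h : cx x = cx y) (hlt : x < y) (hy : cx x = i → y / 6 < n) :
    fl (S i n) x y = if i = cx x then [x, y] else [] := by
  rw [fl_S]
  by_cases h1 : cx x = i
  · have h2 : cx y = i := h ▸ h1
    have e1 := mk i x h1
    have e2 := mk i y h2
    have h3 : x / 6 < y / 6 := by omega
    simp only [h1, h2, true_and, if_true]
    rw [R2 _ _ h3, if_pos (hy h1), List.map_cons, List.map_singleton, e1, e2]
  · have h2 : cx y ≠ i := h ▸ h1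
    simp only [h1, h2, false_and, or_false]
    rw [if_neg (fun h3 => h1 h3.symm)]
    simp

theorem fl_reverse (l : List ℕ) (x y : ℕ) : fl l.reverse x y = (fl l x y).reverse := by
  unfold fl
  rw [List.filter_reverse]

theorem rl_ne (i : Fin 6) (d : Bool) (n x y : ℕ) (h : cx x ≠ cx y) (hx : cx x = i → x / 6 < n)
    (hy : cx y = i → y / 6 < n) :
    fl (rl i d n) x y = if i = cx x then [x] else if i = cx y then [y] else [] := by
  unfold rl
  cases d
  · exact S_ne i n x y h hx hy
  · rw [if_pos rfl, fl_reverse, S_ne i n x y h hx hy]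
    split_ifs <;> rfl

theorem rl_eq (i : Fin 6) (d : Bool) (n x y : ℕ) (h : cx x = cx y) (hlt : x < y)
    (hy : cx x = i → y / 6 < n) :
    fl (rl i d n) x y = if i = cx x then (if d then [y, x] else [x, y]) else [] := by
  unfold rl
  cases d
  · exact S_eq i n x y h hlt hy
  · rw [if_pos rfl, fl_reverse, S_eq i n x y h hlt hy]
    by_cases h1 : i = cx x
    · simp [h1]
    · simp [h1]

theorem fl_flatMap {α : Type} (l : List α) (f : α → List ℕ) (x y : ℕ) :
    fl (l.flatMap f) x y = l.flatMap fun p => fl (f p) x y := by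
  unfold fl
  rw [List.filter_flatMap]

theorem Wd_eq (P : Pat) (a : Fin 6 → ℕ) : Wd P a = (List.finRange 12).flatMap fun p =>
    rl (P.ch p) (P.st p && !(P.pr (P.ch p))) (a (P.ch p)) := by
  unfold Wd W2
  rw [List.map_flatMap]
  simp only [run_fst]

/-- the pattern of two chains -/
def L1 (P : Pat) (i j : Fin 6) : List Bool := (List.finRange 12).flatMap fun p =>
  if P.ch p = i then [true] else if P.ch p = j then [false] else []

/-- the pattern of one chain -/
def L2 (P : Pat) (i : Fin 6) : List Bool := (List.finRange 12).flatMap fun p =>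
  if P.ch p = i then (if (P.st p && !(P.pr (P.ch p))) then [false, true] else [true, false]) else []

theorem inj {x y : ℕ} (h : x ≠ y) : Function.Injective (fun b : Bool => cond b x y) := by
  intro b b' hb
  cases b <;> cases b' <;> simp_all

theorem fl_map {x y : ℕ} (h : x ≠ y) (l : List ℕ) (L : List Bool)
    (e : fl l x y = L.map (fun b => cond b x y)) :
    Il l x y ↔ (L = [true, false, true, false] ∨ L = [false, true, false, true]) := by
  unfold Il
  rw [e]
  have h1 : [x, y, x, y] = [true, false, true, false].map (fun b => cond b x y) := rfl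
  have h2 : [y, x, y, x] = [false, true, false, true].map (fun b => cond b x y) := rfl
  rw [h1, h2, (List.map_injective_iff.2 (inj h)).eq_iff, (List.map_injective_iff.2 (inj h)).eq_iff]
  exact ⟨fun h3 => h3.2, fun h3 => ⟨h, h3⟩⟩

theorem Il_symm (l : List ℕ) (x y : ℕ) : Il l x y ↔ Il l y x := by
  have e : fl l x y = fl l y x := by
    unfold fl
    refine List.filter_congr fun z _ => ?_
    simp only [or_comm]
  unfold Il
  rw [e]
  constructor
  · rintro ⟨h1, h2 | h2⟩
    · exact ⟨h1.symm, Or.inr h2⟩
    · exact ⟨h1.symm, Or.inl h2⟩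
  · rintro ⟨h1, h2 | h2⟩
    · exact ⟨h1.symm, Or.inr h2⟩
    · exact ⟨h1.symm, Or.inl h2⟩

theorem tab1 : ∀ i j : Fin 6, i ≠ j → ((L1 pat1 i j = [true, false, true, false] ∨
    L1 pat1 i j = [false, true, false, true]) ↔ pat1.Q i j = true) := by
  decide +kernel

theorem tab2 : ∀ i j : Fin 6, i ≠ j → ((L1 pat2 i j = [true, false, true, false] ∨
    L1 pat2 i j = [false, true, false, true]) ↔ pat2.Q i j = true) := by
  decide +kernel

theorem tab3 : ∀ i : Fin 6, ((L2 pat1 i = [true, false, true, false] ∨
    L2 pat1 i = [false, true, false, true]) ↔ pat1.Q i i = true) := by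
  decide +kernel

theorem tab4 : ∀ i : Fin 6, ((L2 pat2 i = [true, false, true, false] ∨
    L2 pat2 i = [false, true, false, true]) ↔ pat2.Q i i = true) := by
  decide +kernel

theorem il_ne (P : Pat) (a : Fin 6 → ℕ) (x y : ℕ) (hx : x / 6 < a (cx x)) (hy : y / 6 < a (cx y))
    (h : cx x ≠ cx y) : Il (Wd P a) x y ↔ (L1 P (cx x) (cx y) = [true, false, true, false] ∨
      L1 P (cx x) (cx y) = [false, true, false, true]) := by
  refine fl_map (fun e => h (by rw [e])) _ _ ?_
  rw [Wd_eq, fl_flatMap]
  unfold L1
  rw [List.map_flatMap]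
  refine List.flatMap_congr fun p _ => ?_
  rw [rl_ne (P.ch p) _ _ x y h (fun e => e ▸ hx) (fun e => e ▸ hy)]
  split_ifs <;> rfl

theorem il_eq (P : Pat) (a : Fin 6 → ℕ) (x y : ℕ) (hy : y / 6 < a (cx y))
    (h : cx x = cx y) (hlt : x < y) : Il (Wd P a) x y ↔
      (L2 P (cx x) = [true, false, true, false] ∨ L2 P (cx x) = [false, true, false, true]) := by
  refine fl_map hlt.ne _ _ ?_
  rw [Wd_eq, fl_flatMap]
  unfold L2
  rw [List.map_flatMap]
  refine List.flatMap_congr fun p _ => ?_
  rw [rl_eq (P.ch p) _ _ x y h hlt (fun e => by rw [← e, h]; exact hy)]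
  split_ifs <;> rfl

theorem wil : WilStmt := by
  intro P hP a x y hx hy hxy
  by_cases h : cx x = cx y
  · have hQ : ∀ i : Fin 6, ((L2 P i = [true, false, true, false] ∨
        L2 P i = [false, true, false, true]) ↔ P.Q i i = true) := by
      rcases hP with rfl | rfl
      · exact tab3
      · exact tab4
    rcases lt_or_gt_of_ne hxy with h1 | h1
    · rw [il_eq P a x y hy h h1, hQ, ← h]
    · rw [Il_symm, il_eq P a y x hx h.symm h1, hQ, ← h]
  · have hQ : ∀ i j : Fin 6, i ≠ j → ((L1 P i j = [true, false, true, false] ∨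
        L1 P i j = [false, true, false, true]) ↔ P.Q i j = true) := by
      rcases hP with rfl | rfl
      · exact tab1
      · exact tab2
    rw [il_ne P a x y hx hy h, hQ _ _ h]

end Pool.Agent.ACK.H25
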